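import Mathlib
import Pool.Agent.Helper27.CW.Spec
import Pool.Agent.Helper61.CD.P1P6

/-! MP_990a44_co, second stage, part Q13 (rank case counting). -/

namespace Pool.Agent.Helper76.CW

open Helper27.CD Helper27.CW

lemma W_eq {κ : Type} [Fintype κ] [DecidableEq κ] (p : ℝ) (x y : κ → ZMod 3) :
    W p x y = (p / 2) ^ (hammingDist x y) * (1 - p) ^ (Fintype.card κ - hammingDist x y) := by
  classical
  have h1 : (Finset.univ.filter (fun i => x i = y i)).card
      = Fintype.card κ - hammingDist x y := by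
    have := Finset.card_filter_add_card_filter_not (s := (Finset.univ : Finset κ))
      (fun i => x i = y i)
    rw [Finset.card_univ] at this
    have h2 : hammingDist x y = (Finset.univ.filter (fun i => ¬ x i = y i)).card := rfl
    omega
  have h2 : hammingDist x y = (Finset.univ.filter (fun i => ¬ x i = y i)).card := rfl
  unfold W
  rw [Finset.prod_ite, Finset.prod_const, Finset.prod_const, h1, ← h2, mul_comm]

lemma W_nonneg {κ : Type} [Fintype κ] [DecidableEq κ] {p : ℝ} (hp : 0 < p) (hp1 : p < 1)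
    (x y : κ → ZMod 3) : 0 ≤ W p x y := by
  unfold W
  refine Finset.prod_nonneg fun i _ => ?_
  split_ifs <;> linarith

lemma W_symm {κ : Type} [Fintype κ] [DecidableEq κ] (p : ℝ) (x y : κ → ZMod 3) :
    W p x y = W p y x := by
  unfold W
  refine Finset.prod_congr rfl fun i _ => ?_
  simp only [eq_comm]

lemma sphere_sum {κ : Type} [Fintype κ] [DecidableEq κ] (p : ℝ) (c : κ → ZMod 3) (k : ℕ) :
    ∑ y ∈ (Finset.univ : Finset (κ → ZMod 3)).filter (fun y => hammingDist y c = k), W p y c
      = bp p (Fintype.card κ) k := by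
  have h : ∀ y ∈ (Finset.univ : Finset (κ → ZMod 3)).filter (fun y => hammingDist y c = k),
      W p y c = (p / 2) ^ k * (1 - p) ^ (Fintype.card κ - k) := by
    intro y hy
    rw [W_eq, (Finset.mem_filter.mp hy).2]
  rw [Finset.sum_congr rfl h, Finset.sum_const, Pool.Agent.Helper61.CD.sphere κ c k]
  unfold bp
  rw [nsmul_eq_mul, div_pow]
  push_cast
  field_simp

lemma prod_split {κ : Type} [Fintype κ] [DecidableEq κ] (J : Finset κ) (f : κ → ℝ) :
    ∏ i, f i = (∏ i ∈ J, f i) * ∏ i : {i // i ∈ Jᶜ}, f i := by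
  rw [← Finset.prod_mul_prod_compl J f, Finset.prod_coe_sort Jᶜ f]

lemma dist_split {κ : Type} [Fintype κ] [DecidableEq κ] (J : Finset κ) (x y : κ → ZMod 3) :
    hammingDist x y = (J.filter (fun i => x i ≠ y i)).card
      + hammingDist (fun i : {i // i ∈ Jᶜ} => x i) (fun i : {i // i ∈ Jᶜ} => y i) := by
  classical
  unfold hammingDist
  rw [Finset.card_filter, Finset.card_filter, Finset.card_filter,
    ← Finset.sum_add_sum_compl J, ← Finset.sum_coe_sort Jᶜ]

lemma dist_split' {κ : Type} [Fintype κ] [DecidableEq κ] (J : Finset κ) (x y : κ → ZMod 3) :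
    hammingDist x y = hammingDist (fun i : {i // i ∈ J} => x i) (fun i : {i // i ∈ J} => y i)
      + hammingDist (fun i : {i // i ∈ Jᶜ} => x i) (fun i : {i // i ∈ Jᶜ} => y i) := by
  classical
  unfold hammingDist
  rw [Finset.card_filter, Finset.card_filter, Finset.card_filter,
    ← Finset.sum_add_sum_compl J, ← Finset.sum_coe_sort Jᶜ, ← Finset.sum_coe_sort J]

lemma W_split {κ : Type} [Fintype κ] [DecidableEq κ] (p : ℝ) (J : Finset κ) (x y : κ → ZMod 3) :
    W p x y = W p (fun i : {i // i ∈ J} => x i) (fun i : {i // i ∈ J} => y i)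
      * W p (fun i : {i // i ∈ Jᶜ} => x i) (fun i : {i // i ∈ Jᶜ} => y i) := by
  unfold W
  rw [prod_split J, ← Finset.prod_coe_sort J]

lemma key {κ lam : Type} [Fintype κ] [DecidableEq κ] [Fintype lam] [DecidableEq lam]
    (N : Matrix lam κ (ZMod 3)) (p q μ : ℝ) (hp : 0 < p) (hp1 : p < 1) (hq1 : 1 - p ≤ q)
    (hq2 : p / 2 ≤ q) (hμ : ∀ j, bp p (Fintype.card κ - N.rank) j ≤ μ)
    (S : Finset (κ → ZMod 3)) (β : κ → ZMod 3) (j1 : ℕ)
    (hS : ∀ x ∈ S, ∀ x' ∈ S, N.mulVec (x - x') = 0) (hd : ∀ x ∈ S, hammingDist x β = j1) :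
    ∑ x ∈ S, W p x β ≤ q ^ N.rank * (((N.rank : ℝ) + 1) * μ) := by
  classical
  obtain ⟨κ', a, ha, hspan, hli⟩ := exists_linearIndependent' (ZMod 3) (fun i : κ => N.col i)
  haveI : Fintype κ' := Fintype.ofInjective a ha
  set J : Finset κ := Finset.univ.image a with hJ
  have hJcard : J.card = N.rank := by
    rw [Finset.card_image_of_injective _ ha, Finset.card_univ, Matrix.rank_eq_finrank_span_cols]
    have h := finrank_span_eq_card hli
    rw [← h, hspan]
  have hq : 0 ≤ q := by linarith
  set r : (κ → ZMod 3) → ({i // i ∈ Jᶜ} → ZMod 3) := fun x i => x i with hr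
  have hinj : Set.InjOn r (S : Set (κ → ZMod 3)) := by
    intro x hx x' hx' hxx
    have h0 := hS x hx x' hx'
    have hoff : ∀ i, i ∉ J → x i = x' i := by
      intro i hi
      exact congrFun hxx ⟨i, Finset.mem_compl.mpr hi⟩
    have hsum : ∑ k : κ', (x (a k) - x' (a k)) • (N.col (a k)) = 0 := by
      have h1 : N.mulVec (x - x') = ∑ i, (x i - x' i) • N.col i := by
        ext l
        simp only [Matrix.mulVec, dotProduct, Finset.sum_apply, Pi.smul_apply, Matrix.col_apply,
          smul_eq_mul, Pi.sub_apply]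
        exact Finset.sum_congr rfl fun i _ => mul_comm _ _
      rw [h1] at h0
      have h2 : ∑ i, (x i - x' i) • N.col i = ∑ i ∈ J, (x i - x' i) • N.col i := by
        symm
        apply Finset.sum_subset (Finset.subset_univ _)
        intro i _ hi
        rw [hoff i hi, sub_self, zero_smul]
      rw [h2, hJ, Finset.sum_image (fun _ _ _ _ h => ha h)] at h0
      exact h0
    have hz := Fintype.linearIndependent_iff.mp hli (fun k => x (a k) - x' (a k)) hsum
    funext i
    by_cases hi : i ∈ J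
    · obtain ⟨k, -, rfl⟩ := Finset.mem_image.mp hi
      exact sub_eq_zero.mp (hz k)
    · exact hoff i hi
  have hWle : ∀ x, W p x β ≤ q ^ N.rank * W p (r x) (r β) := by
    intro x
    have h1 : W p x β = (∏ i ∈ J, if x i = β i then 1 - p else p / 2) * W p (r x) (r β) := by
      unfold W
      rw [prod_split J]
    rw [h1]
    refine mul_le_mul_of_nonneg_right ?_ (W_nonneg hp hp1 _ _)
    rw [← hJcard, ← Finset.prod_const]
    refine Finset.prod_le_prod (fun i _ => ?_) (fun i _ => ?_)
    · split_ifs <;> linarith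
    · split_ifs <;> assumption
  have hcardJc : Fintype.card {i // i ∈ Jᶜ} = Fintype.card κ - N.rank := by
    rw [Fintype.card_coe, Finset.card_compl, hJcard]
  calc ∑ x ∈ S, W p x β ≤ ∑ x ∈ S, q ^ N.rank * W p (r x) (r β) :=
        Finset.sum_le_sum fun x _ => hWle x
    _ = q ^ N.rank * ∑ y ∈ S.image r, W p y (r β) := by
        rw [← Finset.mul_sum, Finset.sum_image hinj]
    _ ≤ q ^ N.rank * (((N.rank : ℝ) + 1) * μ) := by
        refine mul_le_mul_of_nonneg_left ?_ (pow_nonneg hq _)
        have hmaps : ∀ y ∈ S.image r, hammingDist y (r β) ∈ Finset.Icc (j1 - N.rank) j1 := by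
          intro y hy
          obtain ⟨x, hx, rfl⟩ := Finset.mem_image.mp hy
          have h1 := dist_split J x β
          rw [hd x hx] at h1
          have h2 : (J.filter (fun i => x i ≠ β i)).card ≤ N.rank := by
            rw [← hJcard]; exact Finset.card_filter_le _ _
          rw [Finset.mem_Icc]
          simp only [hr]
          omega
        rw [← Finset.sum_fiberwise_of_maps_to hmaps]
        calc ∑ d ∈ Finset.Icc (j1 - N.rank) j1,
              ∑ y ∈ (S.image r).filter (fun y => hammingDist y (r β) = d), W p y (r β)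
            ≤ ∑ d ∈ Finset.Icc (j1 - N.rank) j1, μ := by
              refine Finset.sum_le_sum fun d _ => ?_
              calc _ ≤ ∑ y ∈ (Finset.univ : Finset ({i // i ∈ Jᶜ} → ZMod 3)).filter
                      (fun y => hammingDist y (r β) = d), W p y (r β) := by
                    refine Finset.sum_le_sum_of_subset_of_nonneg ?_
                      fun y _ _ => W_nonneg hp hp1 _ _
                    exact Finset.filter_subset_filter _ (Finset.subset_univ _)
                _ = bp p (Fintype.card κ - N.rank) d := by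
                    rw [sphere_sum, hcardJc]
                _ ≤ μ := hμ d
          _ = ((Finset.Icc (j1 - N.rank) j1).card : ℝ) * μ := by
              rw [Finset.sum_const, nsmul_eq_mul]
          _ ≤ ((N.rank : ℝ) + 1) * μ := by
              have hμ0 : 0 ≤ μ := by
                refine le_trans ?_ (hμ 0)
                unfold bp
                have : 0 ≤ 1 - p := by linarith
                positivity
              refine mul_le_mul_of_nonneg_right ?_ hμ0
              rw [Nat.card_Icc]
              have : j1 + 1 - (j1 - N.rank) ≤ N.rank + 1 := by omega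
              exact_mod_cast this

lemma card_coset {κ lam : Type} [Fintype κ] [DecidableEq κ] [Fintype lam] [DecidableEq lam]
    (N : Matrix lam κ (ZMod 3)) (S : Finset (lam → ZMod 3)) (s0 : lam → ZMod 3)
    (h : ∀ s ∈ S, ∃ x, N.mulVec x = s - s0) : S.card ≤ 3 ^ N.rank := by
  classical
  haveI : Fintype (LinearMap.range N.mulVecLin) := Fintype.ofFinite _
  have hcard : Fintype.card (LinearMap.range N.mulVecLin) = 3 ^ N.rank := by
    rw [Module.card_eq_pow_finrank (K := ZMod 3), ZMod.card]
    rfl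
  rw [← hcard, ← Finset.card_univ]
  refine Finset.card_le_card_of_injOn
    (fun s => if hs : ∃ x, N.mulVec x = s - s0 then ⟨s - s0, by
      obtain ⟨x, hx⟩ := hs; exact ⟨x, hx⟩⟩ else 0) (fun _ _ => Finset.mem_coe.mpr (Finset.mem_univ _)) ?_
  intro s hs s' hs' hss
  simp only [h s hs, h s' hs', dite_true] at hss
  have := congrArg Subtype.val hss
  simpa using this

theorem alpha : S_alpha := by
  classical
  intro ι _ _ A B δ I M p q μ₁ μ₂ ρ hAB hRel hp hp1 hq1 hq2 hρ hμ1 hμ2
  have hq : 0 ≤ q := by linarith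
  have h1p : 0 ≤ 1 - p := by linarith
  have hμ10 : 0 ≤ μ₁ := by
    refine le_trans ?_ (hμ1 0)
    unfold bp
    positivity
  have hμ20 : 0 ≤ μ₂ := by
    refine le_trans ?_ (hμ2 0)
    unfold bp
    positivity
  rcases A.eq_empty_or_nonempty with rfl | ⟨a0, ha0⟩
  · simp only [T, Finset.sum_empty]; positivity
  rcases B.eq_empty_or_nonempty with rfl | ⟨b0, hb0⟩
  · simp only [T, Finset.sum_empty, Finset.sum_const_zero]; positivity
  obtain ⟨hRA, hRB⟩ := hRel
  set N := blk I M with hN
  set rI : (ι → ZMod 3) → ({i // i ∈ I} → ZMod 3) := fun x i => x i with hrI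
  set rC : (ι → ZMod 3) → ({i // i ∈ Iᶜ} → ZMod 3) := fun x i => x i with hrC
  have hmulA : ∀ a ∈ A, ∀ a' ∈ A, N.mulVec (rI a - rI a') = rC a - rC a' := by
    intro a ha a' ha'
    funext l
    have := hRA a ha a' ha' l (Finset.mem_compl.mp l.2)
    simp only [Matrix.mulVec, dotProduct, hN, blk, Matrix.of_apply, hrI, hrC, Pi.sub_apply]
    rw [this, ← Finset.sum_coe_sort I]
  have hmulB : ∀ b ∈ B, ∀ b' ∈ B, N.transpose.mulVec (rC b - rC b') = -(rI b - rI b') := by
    intro b hb b' hb'
    funext i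
    have := hRB b hb b' hb' i i.2
    simp only [Matrix.mulVec, dotProduct, hN, blk, Matrix.of_apply, Matrix.transpose_apply,
      hrI, hrC, Pi.sub_apply, Pi.neg_apply]
    rw [this, neg_neg, ← Finset.sum_coe_sort Iᶜ]
  have hcA : (A.image rC).card ≤ 3 ^ ρ := by
    rw [hρ]
    refine card_coset N _ (rC a0) fun s hs => ?_
    obtain ⟨a, ha, rfl⟩ := Finset.mem_image.mp hs
    exact ⟨rI a - rI a0, hmulA a ha a0 ha0⟩
  have hcB : (B.image rI).card ≤ 3 ^ ρ := by
    rw [hρ, ← Matrix.rank_transpose]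
    refine card_coset N.transpose _ (rI b0) fun s hs => ?_
    obtain ⟨b, hb, rfl⟩ := Finset.mem_image.mp hs
    refine ⟨rC b0 - rC b, ?_⟩
    rw [hmulB b0 hb0 b hb]
    abel
  have hT : T p A B = ∑ α ∈ A.image rC, ∑ β ∈ B.image rI,
      (∑ a ∈ A.filter (fun a => rC a = α), W p (rI a) β) *
      (∑ b ∈ B.filter (fun b => rI b = β), W p α (rC b)) := by
    unfold T
    rw [← Finset.sum_fiberwise_of_maps_to (fun a ha => Finset.mem_image_of_mem rC ha)]
    refine Finset.sum_congr rfl fun α _ => ?_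
    have : ∀ a ∈ A.filter (fun a => rC a = α), ∑ b ∈ B, W p a b =
        ∑ β ∈ B.image rI, ∑ b ∈ B.filter (fun b => rI b = β), W p (rI a) β * W p α (rC b) := by
      intro a ha
      rw [← Finset.sum_fiberwise_of_maps_to (fun b hb => Finset.mem_image_of_mem rI hb)]
      refine Finset.sum_congr rfl fun β _ => Finset.sum_congr rfl fun b hb => ?_
      rw [W_split p I a b, ← (Finset.mem_filter.mp ha).2, ← (Finset.mem_filter.mp hb).2]
    rw [Finset.sum_congr rfl this, Finset.sum_comm]
    refine Finset.sum_congr rfl fun β _ => ?_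
    rw [Finset.sum_mul_sum]
  have hdist : ∀ a b : ι → ZMod 3, hammingDist a b
      = hammingDist (rI a) (rI b) + hammingDist (rC a) (rC b) := fun a b => dist_split' I a b
  have hinner : ∀ α ∈ A.image rC, ∀ β ∈ B.image rI,
      (∑ a ∈ A.filter (fun a => rC a = α), W p (rI a) β) *
      (∑ b ∈ B.filter (fun b => rI b = β), W p α (rC b)) ≤
      (q ^ ρ * (((ρ : ℝ) + 1) * μ₁)) * (q ^ ρ * (((ρ : ℝ) + 1) * μ₂)) := by
    intro α hα β hβ
    obtain ⟨a1, ha1, rfl⟩ := Finset.mem_image.mp hα
    obtain ⟨b1, hb1, rfl⟩ := Finset.mem_image.mp hβ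
    refine mul_le_mul ?_ ?_ (Finset.sum_nonneg fun b _ => W_nonneg hp hp1 _ _) (by positivity)
    · have hinj : Set.InjOn rI (A.filter (fun a => rC a = rC a1) : Set (ι → ZMod 3)) := by
        intro x hx x' hx' hxx
        have hx := (Finset.mem_filter.mp (Finset.mem_coe.mp hx)).2
        have hx' := (Finset.mem_filter.mp (Finset.mem_coe.mp hx')).2
        funext i
        by_cases hi : i ∈ I
        · exact congrFun hxx ⟨i, hi⟩
        · exact congrFun (hx.trans hx'.symm) ⟨i, Finset.mem_compl.mpr hi⟩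
      rw [← Finset.sum_image (f := fun x => W p x (rI b1)) hinj, hρ]
      refine key N p q μ₁ hp hp1 hq1 hq2 ?_ _ (rI b1) (δ - hammingDist (rC a1) (rC b1)) ?_ ?_
      · intro j
        rw [Fintype.card_coe, ← hρ]
        exact hμ1 j
      · intro x hx x' hx'
        obtain ⟨a, ha, rfl⟩ := Finset.mem_image.mp hx
        obtain ⟨a', ha', rfl⟩ := Finset.mem_image.mp hx'
        rw [Finset.mem_filter] at ha ha'
        rw [hmulA a ha.1 a' ha'.1, ha.2, ha'.2, sub_self]
      · intro x hx
        obtain ⟨a, ha, rfl⟩ := Finset.mem_image.mp hx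
        rw [Finset.mem_filter] at ha
        have h1 := hAB a ha.1 b1 hb1
        rw [hdist a b1, ha.2] at h1
        omega
    · have hinj : Set.InjOn rC (B.filter (fun b => rI b = rI b1) : Set (ι → ZMod 3)) := by
        intro x hx x' hx' hxx
        have hx := (Finset.mem_filter.mp (Finset.mem_coe.mp hx)).2
        have hx' := (Finset.mem_filter.mp (Finset.mem_coe.mp hx')).2
        funext i
        by_cases hi : i ∈ I
        · exact congrFun (hx.trans hx'.symm) ⟨i, hi⟩
        · exact congrFun hxx ⟨i, Finset.mem_compl.mpr hi⟩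
      have hsw : ∀ b ∈ B.filter (fun b => rI b = rI b1), W p (rC a1) (rC b)
          = W p (rC b) (rC a1) := fun b _ => W_symm p _ _
      rw [Finset.sum_congr rfl hsw,
        ← Finset.sum_image (f := fun x => W p x (rC a1)) hinj, hρ, ← Matrix.rank_transpose]
      refine key N.transpose p q μ₂ hp hp1 hq1 hq2 ?_ _ (rC a1)
        (δ - hammingDist (rI a1) (rI b1)) ?_ ?_
      · intro j
        rw [Fintype.card_coe, Matrix.rank_transpose, ← hρ]
        exact hμ2 j
      · intro x hx x' hx'
        obtain ⟨b, hb, rfl⟩ := Finset.mem_image.mp hx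
        obtain ⟨b', hb', rfl⟩ := Finset.mem_image.mp hx'
        rw [Finset.mem_filter] at hb hb'
        rw [hmulB b hb.1 b' hb'.1, hb.2, hb'.2, sub_self, neg_zero]
      · intro x hx
        obtain ⟨b, hb, rfl⟩ := Finset.mem_image.mp hx
        rw [Finset.mem_filter] at hb
        have h1 := hAB a1 ha1 b hb.1
        rw [hdist a1 b, hb.2, hammingDist_comm (rC a1)] at h1
        omega
  rw [hT]
  calc _ ≤ ∑ α ∈ A.image rC, ∑ β ∈ B.image rI,
        (q ^ ρ * (((ρ : ℝ) + 1) * μ₁)) * (q ^ ρ * (((ρ : ℝ) + 1) * μ₂)) :=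
        Finset.sum_le_sum fun α hα => Finset.sum_le_sum fun β hβ => hinner α hα β hβ
    _ = ((A.image rC).card : ℝ) * ((B.image rI).card *
        ((q ^ ρ * (((ρ : ℝ) + 1) * μ₁)) * (q ^ ρ * (((ρ : ℝ) + 1) * μ₂)))) := by
        rw [Finset.sum_const, Finset.sum_const, nsmul_eq_mul, nsmul_eq_mul]
    _ ≤ (3 ^ ρ : ℝ) * (3 ^ ρ *
        ((q ^ ρ * (((ρ : ℝ) + 1) * μ₁)) * (q ^ ρ * (((ρ : ℝ) + 1) * μ₂)))) := by
        have e1 : ((A.image rC).card : ℝ) ≤ 3 ^ ρ := by exact_mod_cast hcA
        have e2 : ((B.image rI).card : ℝ) ≤ 3 ^ ρ := by exact_mod_cast hcB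
        have hnn : 0 ≤ (q ^ ρ * (((ρ : ℝ) + 1) * μ₁)) * (q ^ ρ * (((ρ : ℝ) + 1) * μ₂)) := by
          positivity
        refine mul_le_mul e1 (mul_le_mul_of_nonneg_right e2 hnn) (by positivity) (by positivity)
    _ = (3 * q) ^ (2 * ρ) * ((ρ : ℝ) + 1) ^ 2 * (μ₁ * μ₂) := by
        rw [mul_pow, pow_mul, pow_mul]
        have : (3 ^ 2 : ℝ) ^ ρ = 3 ^ ρ * 3 ^ ρ := by rw [← mul_pow]; norm_num
        rw [this]
        have : (q ^ 2 : ℝ) ^ ρ = q ^ ρ * q ^ ρ := by rw [← mul_pow]; ring
        rw [this]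
        ring

end Pool.Agent.Helper76.CW
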