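import Mathlib
import Pool.Agent.Helper76.CW.Q13

/-! MP_990a44_co, second stage, part Q14 (small v counting). -/

namespace Pool.Agent.Helper76.CW

open Helper27.CD Helper27.CW

theorem beta (htri : S_tri) : S_beta := by
  classical
  intro ι _ _ A B δ I M p q w hAB hRel hp6 hp7 hq1 hq2 hcard hw hsep
  obtain ⟨hRA, hRB⟩ := hRel
  have hp : 0 < p := by linarith
  have hp1 : p < 1 := by linarith
  have hq : 0 ≤ q := by linarith
  set v := Iᶜ.card with hv
  set rI : (ι → ZMod 3) → ({i // i ∈ I} → ZMod 3) := fun x i => x i with hrI
  set rC : (ι → ZMod 3) → ({i // i ∈ Iᶜ} → ZMod 3) := fun x i => x i with hrC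
  have hdist : ∀ a b : ι → ZMod 3, hammingDist a b
      = hammingDist (rI a) (rI b) + hammingDist (rC a) (rC b) := fun a b => dist_split' I a b
  have hC : ∀ a b : ι → ZMod 3, hammingDist (rC a) (rC b) ≤ v := by
    intro a b
    have := hammingDist_le_card_fintype (x := rC a) (y := rC b)
    rwa [Fintype.card_coe] at this
  -- |B| ≤ 3 ^ v
  have hBcard : B.card ≤ 3 ^ v := by
    have hinj : Set.InjOn rC (B : Set (ι → ZMod 3)) := by
      intro b hb b' hb' h
      have hoff : ∀ l, l ∈ Iᶜ → b l = b' l := fun l hl => congrFun h ⟨l, hl⟩
      funext i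
      by_cases hi : i ∈ I
      · have h1 := hRB b hb b' hb' i hi
        have h2 : ∑ l ∈ Iᶜ, M l i * (b l - b' l) = 0 :=
          Finset.sum_eq_zero fun l hl => by rw [hoff l hl, sub_self, mul_zero]
        rw [h2, neg_zero] at h1
        exact sub_eq_zero.mp h1
      · exact hoff i (Finset.mem_compl.mpr hi)
    calc B.card = (B.image rC).card := (Finset.card_image_of_injOn hinj).symm
      _ ≤ Fintype.card ({i // i ∈ Iᶜ} → ZMod 3) := Finset.card_le_univ _
      _ = 3 ^ v := by rw [Fintype.card_fun, ZMod.card, Fintype.card_coe]
  have hinjA : Set.InjOn rI (A : Set (ι → ZMod 3)) := by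
    intro a ha a' ha' h
    have hon : ∀ i, i ∈ I → a i = a' i := fun i hi => congrFun h ⟨i, hi⟩
    funext l
    by_cases hl : l ∈ I
    · exact hon l hl
    · have h1 := hRA a ha a' ha' l hl
      have h2 : ∑ i ∈ I, M l i * (a i - a' i) = 0 :=
        Finset.sum_eq_zero fun i hi => by rw [hon i hi, sub_self, mul_zero]
      rw [h2] at h1
      exact sub_eq_zero.mp h1
  set R : ℝ := 100 / Real.sqrt ((I.card : ℝ) * w) with hR
  have hR0 : 0 ≤ R := by positivity
  have hone : ∀ b ∈ B, ∑ a ∈ A, W p a b ≤ q ^ v * (((v : ℝ) + 1) ^ 2 * R) := by
    intro b hb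
    obtain ⟨b', hb', hbb⟩ := hsep b hb
    have hdI : w ≤ hammingDist (rI b) (rI b') := by
      refine hbb.trans (le_of_eq ?_)
      unfold hammingDist
      rw [Finset.card_filter, Finset.card_filter, ← Finset.sum_coe_sort I]
    have hne : rI b ≠ rI b' := by
      intro h
      rw [h, hammingDist_self] at hdI
      omega
    have hWle : ∀ a ∈ A, W p a b ≤ q ^ v * W p (rI a) (rI b) := by
      intro a _
      rw [W_split p I a b, mul_comm]
      refine mul_le_mul_of_nonneg_right ?_ (W_nonneg hp hp1 _ _)
      have : q ^ v = ∏ _i : {i // i ∈ Iᶜ}, q := by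
        rw [Finset.prod_const, Finset.card_univ, Fintype.card_coe]
      rw [this]
      unfold W
      refine Finset.prod_le_prod (fun i _ => ?_) (fun i _ => ?_)
      · split_ifs <;> linarith
      · split_ifs <;> assumption
    calc ∑ a ∈ A, W p a b ≤ ∑ a ∈ A, q ^ v * W p (rI a) (rI b) := Finset.sum_le_sum hWle
      _ = q ^ v * ∑ z ∈ A.image rI, W p z (rI b) := by
          rw [← Finset.mul_sum, Finset.sum_image hinjA]
      _ ≤ q ^ v * (((v : ℝ) + 1) ^ 2 * R) := by
          refine mul_le_mul_of_nonneg_left ?_ (pow_nonneg hq _)
          have hmaps : ∀ z ∈ A.image rI, (hammingDist z (rI b), hammingDist z (rI b')) ∈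
              (Finset.Icc (δ - v) δ) ×ˢ (Finset.Icc (δ - v) δ) := by
            intro z hz
            obtain ⟨a, ha, rfl⟩ := Finset.mem_image.mp hz
            have h1 := hAB a ha b hb
            have h2 := hAB a ha b' hb'
            rw [hdist] at h1 h2
            have h3 := hC a b
            have h4 := hC a b'
            rw [Finset.mem_product, Finset.mem_Icc, Finset.mem_Icc]
            simp only
            omega
          rw [← Finset.sum_fiberwise_of_maps_to hmaps]
          calc ∑ jj ∈ (Finset.Icc (δ - v) δ) ×ˢ (Finset.Icc (δ - v) δ),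
                ∑ z ∈ (A.image rI).filter
                  (fun z => (hammingDist z (rI b), hammingDist z (rI b')) = jj), W p z (rI b)
              ≤ ∑ jj ∈ (Finset.Icc (δ - v) δ) ×ˢ (Finset.Icc (δ - v) δ), R := by
                refine Finset.sum_le_sum fun jj hjj => ?_
                obtain ⟨j, j'⟩ := jj
                rw [Finset.mem_product, Finset.mem_Icc, Finset.mem_Icc] at hjj
                simp only at hjj
                have h5 := htri {i // i ∈ I} (rI b) (rI b') p j j' hp6 hp7 (by
                  rw [Fintype.card_coe]; omega) hne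
                rw [Fintype.card_coe] at h5
                calc _ ≤ ∑ z ∈ (Finset.univ : Finset ({i // i ∈ I} → ZMod 3)).filter
                        (fun z => hammingDist z (rI b) = j ∧ hammingDist z (rI b') = j'),
                        W p z (rI b) := by
                      refine Finset.sum_le_sum_of_subset_of_nonneg ?_
                        fun y _ _ => W_nonneg hp hp1 _ _
                      intro z hz
                      rw [Finset.mem_filter] at hz ⊢
                      simp only [Prod.mk.injEq] at hz
                      exact ⟨Finset.mem_univ _, hz.2⟩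
                  _ ≤ 100 / Real.sqrt ((I.card : ℝ) * hammingDist (rI b) (rI b')) := h5
                  _ ≤ R := by
                      rw [hR]
                      have hIpos : 0 < I.card := by
                        have : (I.filter (fun i => b i ≠ b' i)).card ≤ I.card :=
                          Finset.card_filter_le _ _
                        omega
                      have hpos : (0 : ℝ) < (I.card : ℝ) * w := by
                        have : (0 : ℝ) < I.card := by exact_mod_cast hIpos
                        have : (0 : ℝ) < w := by exact_mod_cast hw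
                        positivity
                      refine div_le_div_of_nonneg_left (by norm_num) (Real.sqrt_pos.mpr hpos) ?_
                      refine Real.sqrt_le_sqrt ?_
                      have : (w : ℝ) ≤ hammingDist (rI b) (rI b') := by exact_mod_cast hdI
                      exact mul_le_mul_of_nonneg_left this (by positivity)
            _ = (((Finset.Icc (δ - v) δ).card : ℝ)) ^ 2 * R := by
                rw [Finset.sum_const, Finset.card_product, nsmul_eq_mul]
                push_cast
                ring
            _ ≤ ((v : ℝ) + 1) ^ 2 * R := by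
                refine mul_le_mul_of_nonneg_right ?_ hR0
                refine pow_le_pow_left₀ (by positivity) ?_ 2
                rw [Nat.card_Icc]
                have : δ + 1 - (δ - v) ≤ v + 1 := by omega
                exact_mod_cast this
  unfold T
  rw [Finset.sum_comm]
  calc ∑ b ∈ B, ∑ a ∈ A, W p a b ≤ ∑ b ∈ B, q ^ v * (((v : ℝ) + 1) ^ 2 * R) :=
        Finset.sum_le_sum hone
    _ = (B.card : ℝ) * (q ^ v * (((v : ℝ) + 1) ^ 2 * R)) := by
        rw [Finset.sum_const, nsmul_eq_mul]
    _ ≤ (3 ^ v : ℝ) * (q ^ v * (((v : ℝ) + 1) ^ 2 * R)) := by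
        refine mul_le_mul_of_nonneg_right ?_ (by positivity)
        exact_mod_cast hBcard
    _ = (3 * q) ^ v * ((v : ℝ) + 1) ^ 2 * R := by
        rw [mul_pow]; ring

end Pool.Agent.Helper76.CW
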